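import Mathlib
import Pool.Agent.R37.Fragile

set_option autoImplicit false
set_option linter.unusedSectionVars false

/-!
Fractionally tree-α-fragile classes have bounded independence degeneracy.
-/

namespace Pool.Agent.Results.MP_1b53c2_co.FragileDegeneracy

open Finset Pool.Agent.R37

open Classical in
/-- `G` has a `β`-general cover of tree-α-width at most `w`: a nonempty multiset `C i` (`i < N`) of
vertex sets such that every vertex lies in at least `β N` of them and every `G[C i]` has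
tree-independence number at most `w`. -/
def HasCover {V : Type} (G : SimpleGraph V) (β : ℝ) (w : ℕ) : Prop :=
  ∃ (N : ℕ) (C : Fin N → Finset V), 0 < N ∧
    (∀ v, β * (N : ℝ) ≤ ((univ.filter (fun i => v ∈ C i)).card : ℝ)) ∧
    ∀ i, treeAlpha (G.induce (C i : Set V)) ≤ w

/-- The class `𝒢` is fractionally tree-α-fragile. -/
def FractionallyFragile (𝒢 : (n : ℕ) → SimpleGraph (Fin n) → Prop) : Prop :=
  ∃ f : ℕ → ℕ, ∀ r : ℕ, 1 ≤ r → ∀ (n : ℕ) (G : SimpleGraph (Fin n)), 𝒢 n G →
    HasCover G (1 - 1 / (r : ℝ)) (f r)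

open Classical in
/-- The independence degeneracy: the least `k` such that every nonempty vertex set `U` contains a
vertex `v` whose neighbourhood in `G[U]` has independence number at most `k`. -/
noncomputable def ideg {V : Type} (G : SimpleGraph V) : ℕ :=
  sInf {k : ℕ | ∀ U : Finset V, U.Nonempty → ∃ v ∈ U, AlphaLE G (U.filter (fun w => G.Adj v w)) k}

/-- rooted bags inside `V` for a tree decomposition of an induced subgraph -/
theorem exists_bags {V : Type} [Fintype V] [DecidableEq V] (G : SimpleGraph V) (C : Finset V)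
    (t : ℕ) (h : treeAlpha (G.induce (C : Set V)) ≤ t) :
    ∃ (n : ℕ) (T : SimpleGraph (Fin n)) (R : Rooting T) (B : Fin n → Finset V) (top : V → Fin n),
      (∀ v ∈ C, R.IsTop {s | v ∈ B s} (top v)) ∧
      (∀ u ∈ C, ∀ v ∈ C, G.Adj u v → ∃ s, u ∈ B s ∧ v ∈ B s) ∧ ∀ s, AlphaLE G (B s) t := by
  classical
  obtain ⟨n, T, X, hTD, hα⟩ := exists_treeAlpha (G.induce (C : Set V))
  obtain ⟨r⟩ := hTD.isTree.connected.nonempty
  obtain ⟨R, -⟩ := exists_rooting hTD.isTree r
  let B : Fin n → Finset V := fun s => (X s).image (fun x => x.1)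
  have hmem : ∀ (v : V) (hv : v ∈ (C : Set V)) s, v ∈ B s ↔ (⟨v, hv⟩ : (C : Set V)) ∈ X s := by
    intro v hv s
    simp only [B, Finset.mem_image]
    constructor
    · rintro ⟨x, hx, rfl⟩
      exact hx
    · intro h
      exact ⟨_, h, rfl⟩
  have htop : ∀ v, ∃ τ, v ∈ C → R.IsTop {s | v ∈ B s} τ := by
    intro v
    by_cases hv : v ∈ C
    · have h1 : R.Sub {s | v ∈ B s} := by
        have h2 : {s | v ∈ B s} = {s | (⟨v, hv⟩ : (C : Set V)) ∈ X s} := by
          ext s
          exact hmem v hv s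
        rw [h2]
        exact Rooting.sub_of_connected (hTD.connected _)
      obtain ⟨τ, hτ⟩ := h1
      exact ⟨τ, fun _ => hτ⟩
    · exact ⟨r, fun h => absurd h hv⟩
  choose top htop using htop
  refine ⟨n, T, R, B, top, htop, ?_, ?_⟩
  · intro u hu v hv huv
    obtain ⟨s, h1, h2⟩ := hTD.edge_mem ⟨u, hu⟩ ⟨v, hv⟩ huv
    exact ⟨s, (hmem u hu s).2 h1, (hmem v hv s).2 h2⟩
  · intro s S hS hSi
    have h1 : (S.subtype (fun v => v ∈ (C : Set V))).card ≤ treeAlpha (G.induce (C : Set V)) := by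
      apply hα s
      · intro x hx
        rw [Finset.mem_subtype] at hx
        exact (hmem x.1 x.2 s).1 (hS hx)
      · intro x hx y hy hxy
        rw [Finset.mem_coe, Finset.mem_subtype] at hx hy
        exact hSi hx hy (fun h => hxy (Subtype.ext h))
    rw [Finset.card_subtype, Finset.filter_true_of_mem] at h1
    · exact h1.trans h
    · intro v hv
      have h2 := hS hv
      simp only [B, Finset.mem_image] at h2
      obtain ⟨x, _, rfl⟩ := h2
      exact x.2

theorem ideg_le {V : Type} [Fintype V] [DecidableEq V] (G : SimpleGraph V) (t : ℕ)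
    (h : HasCover G (1 - 1 / ((4 : ℕ) : ℝ)) t) :
    ideg G ≤ 2 * (t + t * t + t * (t * t)) := by
  classical
  obtain ⟨N, C, hN, hcov, hw⟩ := h
  apply Nat.sInf_le
  intro U hU
  by_contra hcon
  push Not at hcon
  have hI : ∀ v ∈ U, ∃ I : Finset V, I ⊆ U.filter (fun w => G.Adj v w) ∧
      G.IsIndepSet (I : Set V) ∧ 2 * (t + t * t + t * (t * t)) < I.card := by
    intro v hv
    have h1 := hcon v hv
    unfold AlphaLE at h1
    push Not at h1
    obtain ⟨I, h2, h3, h4⟩ := h1
    refine ⟨I, ?_, h3, h4⟩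
    intro w hw
    have := h2 hw
    rw [Finset.mem_filter] at this ⊢
    exact this
  choose! I hI1 hI2 hI3 using hI
  obtain ⟨X, hX, hXmax⟩ := Finset.exists_max_image
    (U.powerset.filter (fun S : Finset V => G.IsIndepSet (S : Set V)))
    (fun S : Finset V => S.card) ⟨∅, by simp⟩
  rw [Finset.mem_filter, Finset.mem_powerset] at hX
  have hXmax' : ∀ S : Finset V, S ⊆ U → G.IsIndepSet (S : Set V) → S.card ≤ X.card := by
    intro S h1 h2
    exact hXmax S (by rw [Finset.mem_filter, Finset.mem_powerset]; exact ⟨h1, h2⟩)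
  have hXpos : 0 < X.card := by
    obtain ⟨v, hv⟩ := hU
    have := hXmax' {v} (by simpa using hv) (by simp)
    simpa using this
  obtain ⟨P, hP⟩ : ∃ P, P = (X ×ˢ U).filter (fun q => q.2 ∈ I q.1) := ⟨_, rfl⟩
  have hPmem : ∀ q, q ∈ P ↔ (q.1 ∈ X ∧ q.2 ∈ U) ∧ q.2 ∈ I q.1 := by
    intro q; rw [hP, Finset.mem_filter, Finset.mem_product]
  have hIU : ∀ x ∈ X, ∀ y ∈ I x, y ∈ U ∧ G.Adj x y := by
    intro x hx y hy
    have := hI1 x (hX.1 hx) hy
    rw [Finset.mem_filter] at this
    exact this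
  have hPcard : (2 * (t + t * t + t * (t * t)) + 1) * X.card ≤ P.card := by
    rw [Finset.card_eq_sum_card_fiberwise (f := fun q : V × V => q.1) (t := X)
      (fun q hq => ((hPmem q).1 hq).1.1), mul_comm, ← smul_eq_mul]
    apply Finset.card_nsmul_le_sum
    intro x hx
    have h1 : (I x).card ≤ (P.filter (fun q => q.1 = x)).card := by
      apply Finset.card_le_card_of_injOn (fun y => (x, y))
      · intro y hy
        have h2 := hIU x hx y hy
        rw [Finset.mem_coe, Finset.mem_filter, hPmem]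
        exact ⟨⟨⟨hx, h2.1⟩, hy⟩, rfl⟩
      · intro a _ b _ hab
        exact (Prod.mk.inj hab).2
    have h2 := hI3 x (hX.1 hx)
    omega
  -- averaging over the cover
  have hcov' : ∀ v, 3 * N ≤ 4 * (univ.filter (fun i => v ∈ C i)).card := by
    intro v
    have h1 : (1 - 1 / ((4 : ℕ) : ℝ)) * (N : ℝ) ≤
        ((univ.filter (fun i => v ∈ C i)).card : ℝ) := by
      convert hcov v
    have h2 : (3 : ℝ) * N ≤ 4 * ((univ.filter (fun i => v ∈ C i)).card : ℝ) := by
      push_cast at h1
      linarith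
    exact_mod_cast h2
  have hpair : ∀ q : V × V, N ≤ 2 * (univ.filter (fun i => q.1 ∈ C i ∧ q.2 ∈ C i)).card := by
    intro q
    have h1 := hcov' q.1
    have h2 := hcov' q.2
    have h3 : (univ.filter (fun i => q.1 ∈ C i)).card + (univ.filter (fun i => q.2 ∈ C i)).card =
        ((univ.filter (fun i => q.1 ∈ C i)) ∪ (univ.filter (fun i => q.2 ∈ C i))).card +
        ((univ.filter (fun i => q.1 ∈ C i)) ∩ (univ.filter (fun i => q.2 ∈ C i))).card :=
      (Finset.card_union_add_card_inter _ _).symm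
    have h4 : ((univ.filter (fun i => q.1 ∈ C i)) ∪ (univ.filter (fun i => q.2 ∈ C i))).card ≤ N := by
      refine (Finset.card_le_univ _).trans ?_
      simp
    have h5 : (univ.filter (fun i => q.1 ∈ C i)) ∩ (univ.filter (fun i => q.2 ∈ C i)) =
        univ.filter (fun i => q.1 ∈ C i ∧ q.2 ∈ C i) := by
      rw [Finset.filter_and]
    rw [h5] at h3
    omega
  have hsum : N * P.card ≤ ∑ i : Fin N, 2 * (P.filter (fun q => q.1 ∈ C i ∧ q.2 ∈ C i)).card := by
    calc N * P.card = ∑ q ∈ P, N := by rw [Finset.sum_const, smul_eq_mul, mul_comm]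
      _ ≤ ∑ q ∈ P, 2 * (univ.filter (fun i => q.1 ∈ C i ∧ q.2 ∈ C i)).card :=
          Finset.sum_le_sum (fun q _ => hpair q)
      _ = ∑ i : Fin N, 2 * (P.filter (fun q => q.1 ∈ C i ∧ q.2 ∈ C i)).card := by
          rw [← Finset.mul_sum, ← Finset.mul_sum]
          congr 1
          simp_rw [Finset.card_filter]
          rw [Finset.sum_comm]
  obtain ⟨i, hi⟩ : ∃ i : Fin N, P.card ≤ 2 * (P.filter (fun q => q.1 ∈ C i ∧ q.2 ∈ C i)).card := by
    by_contra hc
    push Not at hc
    have hne : (univ : Finset (Fin N)).Nonempty := ⟨⟨0, hN⟩, Finset.mem_univ _⟩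
    have h1 : ∑ i : Fin N, 2 * (P.filter (fun q => q.1 ∈ C i ∧ q.2 ∈ C i)).card <
        ∑ i : Fin N, P.card := Finset.sum_lt_sum_of_nonempty hne (fun i _ => hc i)
    rw [Finset.sum_const, Finset.card_univ, Fintype.card_fin, smul_eq_mul] at h1
    omega
  obtain ⟨n, T, R, B, top, htop, hedge, hα⟩ := exists_bags G (C i) t (hw i)
  obtain ⟨S, hS1, hS2, hS3⟩ := exists_indep_of_pairs R htop hedge hα hX.2
    (P := P.filter (fun q => q.1 ∈ C i ∧ q.2 ∈ C i))
    (fun q hq => ((hPmem q).1 (Finset.mem_filter.1 hq).1).1.1)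
    (fun q hq => (Finset.mem_filter.1 hq).2)
    (fun q hq => by
      have h1 := (hPmem q).1 (Finset.mem_filter.1 hq).1
      exact (hIU q.1 h1.1.1 q.2 h1.2).2)
    (fun x => by
      intro y hy z hz hyz
      have hy1 := (hPmem _).1 (Finset.mem_filter.1 hy).1
      have hz1 := (hPmem _).1 (Finset.mem_filter.1 hz).1
      exact hI2 x (hX.1 hy1.1.1) hy1.2 hz1.2 hyz)
  have hSU : S ⊆ U := by
    intro y hy
    have := hS1 hy
    rw [Finset.mem_image] at this
    obtain ⟨q, hq, rfl⟩ := this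
    exact ((hPmem q).1 (Finset.mem_filter.1 hq).1).1.2
  have h1 := hXmax' S hSU hS2
  have h2 : t * (t * t * S.card) ≤ t * (t * t * X.card) :=
    Nat.mul_le_mul_left _ (Nat.mul_le_mul_left _ h1)
  have h3 : (2 * (t + t * t + t * (t * t)) + 1) * X.card ≤
      2 * (t * X.card + t * t * X.card + t * (t * t * X.card)) := by omega
  have h4 : (2 * (t + t * t + t * (t * t)) + 1) * X.card =
      2 * (t * X.card + t * t * X.card + t * (t * t * X.card)) + X.card := by ring
  omega

/-- Every fractionally tree-α-fragile graph class has bounded independence degeneracy. -/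
theorem result : ∀ 𝒢 : (n : ℕ) → SimpleGraph (Fin n) → Prop, FractionallyFragile 𝒢 →
    ∃ k : ℕ, ∀ (n : ℕ) (G : SimpleGraph (Fin n)), 𝒢 n G → ideg G ≤ k := by
  intro 𝒢 ⟨f, hf⟩
  exact ⟨_, fun n G hG => ideg_le G (f 4) (hf 4 (by norm_num) n G hG)⟩

end Pool.Agent.Results.MP_1b53c2_co.FragileDegeneracy
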